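import Pool.Agent.Helper883_Det.Lin
import Pool.Agent.Y102.AV14
import Pool.Agent.Y102.V11

set_option autoImplicit false
set_option linter.unusedSectionVars false
set_option linter.unusedSimpArgs false
set_option linter.unusedVariables false

/-!
# The centre is determined by the determinantal classes
-/

open Module Function TensorProduct

noncomputable section

namespace Pool.Agent.Helper883Det

open Pool.Agent.Y102 Pool.Agent.W516.DR Pool.Agent.H204R3.GP Pool.Agent.W516.KC
  Pool.Agent.H204R3.SP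

variable {g : ℕ} (A : AbVar g)

/-- The form is killed by the commutators of the endomorphisms which commute with the skew central
endomorphisms. -/
def Det {κ : Type} [Fintype κ] [DecidableEq κ] (φ : MultilinearMap ℚ (fun _ : κ => A.H1) ℚ) :
    Prop :=
  ∀ X Y : Module.End ℚ A.H1, (∀ R ∈ A.ZA, X * R = R * X) → (∀ R ∈ A.ZA, Y * R = R * Y) →
    Kills (X * Y - Y * X) φ

theorem repr_eigen {n : ℕ} {b : Basis (Fin n) ℂ (ℂ ⊗[ℚ] A.H1)} {χ : Fin n → (A.ZA →ₗ[ℚ] ℂ)}
    (hb : ∀ k (R : A.ZA), (R : Module.End ℚ A.H1).baseChange ℂ (b k) = χ k R • b k)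
    (R : A.ZA) (v : ℂ ⊗[ℚ] A.H1) (i : Fin n) :
    b.repr ((R : Module.End ℚ A.H1).baseChange ℂ v) i = χ i R * b.repr v i := by
  have h3 : (Finsupp.lapply i ∘ₗ b.repr.toLinearMap) ∘ₗ
      ((R : Module.End ℚ A.H1).baseChange ℂ) =
      (χ i R) • (Finsupp.lapply i ∘ₗ b.repr.toLinearMap) := by
    refine b.ext fun l => ?_
    rw [LinearMap.comp_apply, hb, map_smul, LinearMap.smul_apply, LinearMap.comp_apply,
      LinearEquiv.coe_coe, Basis.repr_self, Finsupp.lapply_apply, Finsupp.single_apply,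
      smul_eq_mul, smul_eq_mul]
    by_cases hl : l = i
    · rw [if_pos hl, hl]
    · rw [if_neg hl, mul_zero, mul_zero]
  exact congrArg (fun F : ℂ ⊗[ℚ] A.H1 →ₗ[ℂ] ℂ => F v) h3

/-- An endomorphism which commutes with the skew central endomorphisms preserves the joint
eigenspaces. -/
theorem pres_of_comm {n : ℕ} {b : Basis (Fin n) ℂ (ℂ ⊗[ℚ] A.H1)} {χ : Fin n → (A.ZA →ₗ[ℚ] ℂ)}
    (hb : ∀ k (R : A.ZA), (R : Module.End ℚ A.H1).baseChange ℂ (b k) = χ k R • b k)
    {B : Type} (f : B → (A.ZA →ₗ[ℚ] ℂ)) {X : Module.End ℚ A.H1}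
    (hX : ∀ R ∈ A.ZA, X * R = R * X) :
    Pres b (fun β k => χ k = f β) (X.baseChange ℂ) := by
  intro β k l hk hl
  obtain ⟨R, hR⟩ : ∃ R, χ l R ≠ f β R := by
    by_contra hcon
    push Not at hcon
    exact hl (LinearMap.ext hcon)
  have h1 : X.baseChange ℂ ((R : Module.End ℚ A.H1).baseChange ℂ (b l)) =
      (R : Module.End ℚ A.H1).baseChange ℂ (X.baseChange ℂ (b l)) := by
    rw [← LinearMap.comp_apply, ← LinearMap.comp_apply, ← LinearMap.baseChange_comp,
      ← LinearMap.baseChange_comp]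
    have h3 : X ∘ₗ (R : Module.End ℚ A.H1) = (R : Module.End ℚ A.H1) ∘ₗ X := hX R R.2
    rw [h3]
  have h2 := congrArg (fun v => b.repr v k) h1
  rw [hb, map_smul, map_smul, Finsupp.smul_apply, smul_eq_mul, repr_eigen A hb] at h2
  have h3 : χ k R = f β R := by rw [hk]
  rw [h3] at h2
  rw [Basis.coord_apply]
  by_contra h0
  exact hR (mul_right_cancel₀ h0 h2)

/-- The trace of a block of a central element. -/
theorem trace_eblk {n : ℕ} {b : Basis (Fin n) ℂ (ℂ ⊗[ℚ] A.H1)} {χ : Fin n → (A.ZA →ₗ[ℚ] ℂ)}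
    (hb : ∀ k (R : A.ZA), (R : Module.End ℚ A.H1).baseChange ℂ (b k) = χ k R • b k)
    {B : Type} (f : B → (A.ZA →ₗ[ℚ] ℂ)) [∀ β, DecidablePred fun k => χ k = f β] (R : A.ZA)
    (β : B) : (eblk b (fun β k => χ k = f β) ((R : Module.End ℚ A.H1).baseChange ℂ) β).trace =
      (Fintype.card {k // χ k = f β} : ℂ) * f β R := by
  have h1 : ∀ k : {k // χ k = f β},
      eblk b (fun β k => χ k = f β) ((R : Module.End ℚ A.H1).baseChange ℂ) β k k = f β R := by
    intro k
    change b.coord k.1 ((R : Module.End ℚ A.H1).baseChange ℂ (b k.1)) = _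
    rw [hb, map_smul, Basis.coord_apply, Basis.repr_self, Finsupp.single_eq_same, smul_eq_mul,
      mul_one, k.2]
  change ∑ k, eblk b (fun β k => χ k = f β) ((R : Module.End ℚ A.H1).baseChange ℂ) β k k = _
  rw [Finset.sum_congr rfl fun k _ => h1 k, Finset.sum_const, Finset.card_univ, nsmul_eq_mul]

theorem bc_comm (X Y : Module.End ℚ A.H1) : (X * Y - Y * X).baseChange ℂ =
    X.baseChange ℂ * Y.baseChange ℂ - Y.baseChange ℂ * X.baseChange ℂ := by
  rw [LinearMap.baseChange_sub]
  have h1 : (X * Y).baseChange ℂ = X.baseChange ℂ * Y.baseChange ℂ :=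
    LinearMap.baseChange_comp _ _
  have h2 : (Y * X).baseChange ℂ = Y.baseChange ℂ * X.baseChange ℂ :=
    LinearMap.baseChange_comp _ _
  rw [h1, h2]

theorem kills_add' {Ω V κ : Type} [Field Ω] [AddCommGroup V] [Module Ω V] [Fintype κ]
    [DecidableEq κ] {X Y : Module.End Ω V} {φ : MultilinearMap Ω (fun _ : κ => V) Ω}
    (hX : Kills X φ) (hY : Kills Y φ) : Kills (X + Y) φ := by
  intro v
  have h3 := congrArg₂ (fun x y : Ω => x + y) (hX v) (hY v)
  simp only [add_zero] at h3
  rw [← h3, ← Finset.sum_add_distrib]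
  refine Finset.sum_congr rfl fun k _ => ?_
  rw [LinearMap.add_apply, MultilinearMap.map_update_add]

theorem kills_smul' {Ω V κ : Type} [Field Ω] [AddCommGroup V] [Module Ω V] [Fintype κ]
    [DecidableEq κ] (c : Ω) {X : Module.End Ω V} {φ : MultilinearMap Ω (fun _ : κ => V) Ω}
    (hX : Kills X φ) : Kills (c • X) φ := by
  intro v
  rw [← mul_zero c, ← hX v, Finset.mul_sum]
  refine Finset.sum_congr rfl fun k _ => ?_
  rw [LinearMap.smul_apply, MultilinearMap.map_update_smul, smul_eq_mul]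

theorem kills_zero' {Ω V κ : Type} [Field Ω] [AddCommGroup V] [Module Ω V] [Fintype κ]
    [DecidableEq κ] {φ : MultilinearMap Ω (fun _ : κ => V) Ω} :
    Kills (0 : Module.End Ω V) φ := by
  intro v
  refine Finset.sum_eq_zero fun k _ => ?_
  rw [LinearMap.zero_apply]
  exact φ.map_coord_zero k (Function.update_self _ _ _)

/-- The derived algebra kills the product of the determinants. -/
theorem kills_DA {n : ℕ} {b : Basis (Fin n) ℂ (ℂ ⊗[ℚ] A.H1)} {χ : Fin n → (A.ZA →ₗ[ℚ] ℂ)}
    (hb : ∀ k (R : A.ZA), (R : Module.End ℚ A.H1).baseChange ℂ (b k) = χ k R • b k)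
    {B : Type} [Fintype B] [DecidableEq B] (f : B → (A.ZA →ₗ[ℚ] ℂ))
    [∀ β, DecidablePred fun k => χ k = f β] {d : Module.End ℚ A.H1} (hd : d ∈ A.DA) :
    Kills (d.baseChange ℂ) (DD b (fun β k => χ k = f β)) := by
  have hcom : ∀ X ∈ A.LA, ∀ R ∈ A.ZA, X * R = R * X := fun X hX R hR => hR.1 X hX
  unfold AbVar.DA at hd
  induction hd using Submodule.span_induction with
  | mem z hz =>
    obtain ⟨x, hx, y, hy, rfl⟩ := hz
    rw [bc_comm]
    exact kills_comm b _ (pres_of_comm A hb f (hcom x hx)) (pres_of_comm A hb f (hcom y hy))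
  | zero =>
    rw [LinearMap.baseChange_zero]
    exact kills_zero'
  | add x y _ _ hx hy =>
    rw [LinearMap.baseChange_add]
    exact kills_add' hx hy
  | smul c x _ hx =>
    have h1 : (c • x).baseChange ℂ = (c : ℂ) • x.baseChange ℂ := by
      rw [LinearMap.baseChange_smul]
      rfl
    rw [h1]
    exact kills_smul' _ hx

/-- **The centre**: a skew central endomorphism which kills all determinantal de Rham-Betti classes
kills all de Rham-Betti classes. -/
theorem ZA_mem {z : Module.End ℚ A.H1} (hz : z ∈ A.ZA)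
    (hk : ∀ (m : ℕ) (φ : MultilinearMap ℚ (fun _ : Fin m × Fin 2 => A.H1) ℚ),
      IsDeRhamBettiForm QBar A.dR tau m φ → Det A φ → Kills z φ) : z ∈ A.LA := by
  classical
  intro m φ hφ
  obtain ⟨n, b, χ, hb⟩ := A.exists_basis
  let β₀ := Module.finBasis ℚ A.H1
  have hcmp : ∀ (lam : ℂ →ₗ[ℚ] ℚ) (Y : Module.End ℚ A.H1),
      Pool.Agent.W516.DR.cmpE lam (Y.baseChange ℂ) = lam 1 • Y := by
    intro lam Y
    refine LinearMap.ext fun w => ?_
    rw [Pool.Agent.W516.DR.cmpE_apply, LinearMap.baseChange_tmul, Pool.Agent.W516.DR.cmp_tmul,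
      LinearMap.smul_apply]
  have hbc : ∀ X : Module.End ℚ A.H1, Kills X φ → Kills (X.baseChange ℂ) (bcm (Ω := ℂ) β₀ φ) := by
    intro X hX
    refine (kills_bcm_iff β₀ φ _).2 fun lam => ?_
    rw [hcmp]
    exact kills_smul' _ hX
  have h2 : Kills (z.baseChange ℂ) (bcm (Ω := ℂ) β₀ φ) := by
    refine kills_of_basis b _ _ fun J => ?_
    have h3 : ∀ (R : A.ZA), ∑ k, bcm (Ω := ℂ) β₀ φ (update (fun l => b (J l)) k
        ((R : Module.End ℚ A.H1).baseChange ℂ (b (J k)))) =
        (∑ k, χ (J k) R) * bcm (Ω := ℂ) β₀ φ (fun l => b (J l)) := by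
      intro R
      rw [Finset.sum_mul]
      refine Finset.sum_congr rfl fun k _ => ?_
      rw [hb, MultilinearMap.map_update_smul, smul_eq_mul]
      congr 2
      exact update_eq_self k (fun l => b (J l))
    rw [h3 ⟨z, hz⟩]
    by_cases h0 : bcm (Ω := ℂ) β₀ φ (fun l => b (J l)) = 0
    · rw [h0, mul_zero]
    -- the central elements of the Lie algebra
    have hCL : ∀ (Z : Module.End ℚ A.H1) (hZ : Z ∈ A.CL),
        ∑ k, χ (J k) ⟨Z, A.CL_le_ZA hZ⟩ = 0 := by
      intro Z hZ
      have h4 := hbc Z (hZ.1 m φ hφ) (fun l => b (J l))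
      rw [h3 ⟨Z, A.CL_le_ZA hZ⟩] at h4
      exact (mul_eq_zero.1 h4).resolve_right h0
    -- the blocks
    let c : Fin m × Fin 2 → ℕ := fun i => Fintype.card {k // χ k = χ (J i)}
    have hc0 : ∀ i, 0 < c i := fun i => Fintype.card_pos_iff.2 ⟨⟨J i, rfl⟩⟩
    have hcn : ∀ i, c i ≤ n := fun i => by
      have := Fintype.card_subtype_le fun k => χ k = χ (J i)
      rwa [Fintype.card_fin] at this
    have hcd : ∀ i, c i ∣ n.factorial := fun i => Nat.dvd_factorial (hc0 i) (hcn i)
    let q : Fin m × Fin 2 → ℕ := fun i => n.factorial / c i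
    have hq : ∀ i, q i * c i = n.factorial := fun i => Nat.div_mul_cancel (hcd i)
    let B : Type := Σ i : Fin m × Fin 2, Fin (q i)
    let f : B → (A.ZA →ₗ[ℚ] ℂ) := fun β => χ (J β.1)
    -- the sum of the traces
    have hsum : ∀ R : A.ZA, ∑ β : B,
        (eblk b (fun β k => χ k = f β) ((R : Module.End ℚ A.H1).baseChange ℂ) β).trace =
        (n.factorial : ℂ) * ∑ i, χ (J i) R := by
      intro R
      rw [Finset.sum_congr rfl fun β _ => trace_eblk A hb f R β]
      change ∑ β : (Σ i : Fin m × Fin 2, Fin (q i)), _ = _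
      rw [Fintype.sum_sigma, Finset.mul_sum]
      refine Finset.sum_congr rfl fun i _ => ?_
      change ∑ _y : Fin (q i), ((c i : ℂ) * χ (J i) R) = _
      rw [Finset.sum_const, Finset.card_univ, Fintype.card_fin, nsmul_eq_mul, ← mul_assoc,
        ← Nat.cast_mul, hq]
    -- the form
    have hcard : Fintype.card (Ix (fun (β : B) k => χ k = f β)) =
        Fintype.card (Fin (m * n.factorial) × Fin 2) := by
      rw [Fintype.card_sigma, Fintype.card_prod, Fintype.card_fin, Fintype.card_fin]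
      change ∑ β : (Σ i : Fin m × Fin 2, Fin (q i)), c β.1 = _
      rw [Fintype.sum_sigma]
      have h5 : ∀ i : Fin m × Fin 2, ∑ _j : Fin (q i), c i = n.factorial := by
        intro i
        rw [Finset.sum_const, Finset.card_univ, Fintype.card_fin, smul_eq_mul, hq]
      rw [Finset.sum_congr rfl fun i _ => h5 i, Finset.sum_const, Finset.card_univ,
        Fintype.card_prod, Fintype.card_fin, Fintype.card_fin, smul_eq_mul]
      ring
    let e : Ix (fun (β : B) k => χ k = f β) ≃ Fin (m * n.factorial) × Fin 2 :=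
      Fintype.equivOfCardEq hcard
    let D : MultilinearMap ℂ (fun _ : Fin (m * n.factorial) × Fin 2 => ℂ ⊗[ℚ] A.H1) ℂ :=
      (DD b (fun (β : B) k => χ k = f β)).domDomCongr e
    have hDLA : ∀ X ∈ A.LA, Kills (X.baseChange ℂ) D := by
      intro X hX
      refine kills_domDomCongr e ?_
      obtain ⟨Z, hZ, d, hd, h⟩ := Submodule.mem_sup.1 (A.LA_le_sup hX)
      rw [← h, LinearMap.baseChange_add]
      refine kills_add' (fun x => ?_) (kills_DA A hb f hd)
      rw [sum_DD b _ (pres_of_comm A hb f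
        fun R hR => (A.CL_le_ZA hZ).2.2 R hR.1), hsum ⟨Z, A.CL_le_ZA hZ⟩, hCL Z hZ, mul_zero,
        zero_mul]
    have hDdet : ∀ X Y : Module.End ℚ A.H1, (∀ R ∈ A.ZA, X * R = R * X) →
        (∀ R ∈ A.ZA, Y * R = R * Y) → Kills ((X * Y - Y * X).baseChange ℂ) D := by
      intro X Y hX hY
      refine kills_domDomCongr e ?_
      rw [bc_comm]
      exact kills_comm b _ (pres_of_comm A hb f hX) (pres_of_comm A hb f hY)
    -- the components
    let S : MultilinearMap ℚ (fun _ : Fin (m * n.factorial) × Fin 2 => A.H1) ℚ → Prop :=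
      fun ψ => IsDeRhamBettiForm QBar A.dR tau (m * n.factorial) ψ ∧ Det A ψ
    have hS : ∀ lam : ℂ →ₗ[ℚ] ℚ, S (fcmp lam D) := by
      intro lam
      refine ⟨?_, fun X Y hX hY => kills_fcmp lam D _ (hDdet X Y hX hY)⟩
      have h6 : IsDeRhamBettiForm QBar (A.basis : Fin g ⊕ Fin g → (A.H1 →ₗ[ℚ] ℂ)) tau
          (m * n.factorial) (fcmp lam D) := by
        refine drb_of_kills A.basis AbVar.tau_ne _ fun X hX => ?_
        rw [← AbVar.LA_eq] at hX
        exact kills_fcmp lam D _ (hDLA X hX)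
      rwa [AbVar.coe_basis] at h6
    have h7 : Kills (z.baseChange ℂ) D :=
      kills_span S z (fun ψ hψ => hk _ ψ hψ.1 hψ.2) D (form_mem_span S D hS)
    have h8 : Kills (z.baseChange ℂ) (DD b (fun (β : B) k => χ k = f β)) := by
      have h9 := kills_domDomCongr e.symm h7
      have h10 : D.domDomCongr e.symm = DD b (fun (β : B) k => χ k = f β) := by
        ext x
        rw [MultilinearMap.domDomCongr_apply, MultilinearMap.domDomCongr_apply]
        congr 1
        funext i
        rw [Equiv.symm_apply_apply]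
      rwa [h10] at h9
    have h11 := h8 (fun i => b i.2.1)
    rw [sum_DD b _ (pres_of_comm A hb f fun R hR => hz.2.2 R hR.1), hsum ⟨z, hz⟩, DD_basis,
      mul_one] at h11
    rw [(mul_eq_zero.1 h11).resolve_left (Nat.cast_ne_zero.2 (Nat.factorial_ne_zero n)), zero_mul]
  obtain ⟨lam, hlam⟩ := exists_lam
  have h3 := (kills_bcm_iff β₀ φ _).1 h2 lam
  rwa [hcmp, hlam, one_smul] at h3

end Pool.Agent.Helper883Det
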