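import Mathlib
import Pool.Agent.W516.DRCoef

set_option autoImplicit false
set_option linter.unusedSectionVars false
set_option linter.unusedSimpArgs false
set_option linter.unusedVariables false

/-!
# Products of determinants of blocks
-/

open Module Function TensorProduct

noncomputable section

namespace Pool.Agent.Helper883Det

open Pool.Agent.H204R3.SP

/-- The derivative of the determinant. -/
theorem sum_det_updateRow {S R : Type*} [Fintype S] [DecidableEq S] [CommRing R]
    (M X : Matrix S S R) : ∑ j, (M.updateRow j ((M * X) j)).det = X.trace * M.det := by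
  have h1 : ∀ j, (M.updateRow j ((M * X) j)).det = ((M * X) * M.adjugate) j j := by
    intro j
    rw [← Matrix.cramer_transpose_apply, Matrix.cramer_eq_adjugate_mulVec,
      ← Matrix.adjugate_transpose, Matrix.mulVec, dotProduct]
    rw [Matrix.mul_apply]
    exact Finset.sum_congr rfl fun k _ => by rw [Matrix.transpose_apply, mul_comm]
  rw [Finset.sum_congr rfl fun j _ => h1 j]
  change ((M * X) * M.adjugate).trace = _
  rw [Matrix.mul_assoc, Matrix.trace_mul_comm, Matrix.mul_assoc, Matrix.adjugate_mul,
    Matrix.mul_smul, Matrix.mul_one, Matrix.trace_smul, smul_eq_mul, mul_comm]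

variable {Ω : Type*} [Field Ω] {V : Type*} [AddCommGroup V] [Module Ω V]
  {ν : Type*} [Fintype ν] [DecidableEq ν] (b : Basis ν Ω V)
  {B : Type*} [Fintype B] [DecidableEq B] (P : B → ν → Prop) [∀ β, DecidablePred (P β)]

/-- The indices of the variables of the product of the determinants of the blocks. -/
abbrev Ix : Type _ := Σ β : B, {k : ν // P β k}

/-- Equality of indices is decidable. -/
@[reducible] def ixDec : DecidableEq (Ix P) := inferInstance

/-- The block of the coordinates. -/
def blk (x : Ix P → V) (β : B) : Matrix {k : ν // P β k} {k : ν // P β k} Ω :=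
  Matrix.of fun j k => b.coord k.1 (x ⟨β, j⟩)

theorem blk_update_same (x : Ix P → V) (β : B) (j : {k : ν // P β k}) (v : V) :
    blk b P (update x ⟨β, j⟩ v) β = (blk b P x β).updateRow j (fun k => b.coord k.1 v) := by
  ext l k
  by_cases hl : l = j
  · subst hl
    rw [Matrix.updateRow_self]
    simp only [blk, Matrix.of_apply, update_self]
  · rw [Matrix.updateRow_ne hl]
    simp only [blk, Matrix.of_apply]
    rw [update_of_ne]
    intro h
    exact hl (by simpa using h)

theorem blk_update_ne (x : Ix P → V) {β β' : B} (h : β' ≠ β) (j : {k : ν // P β k}) (v : V) :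
    blk b P (update x ⟨β, j⟩ v) β' = blk b P x β' := by
  ext l k
  simp only [blk, Matrix.of_apply]
  rw [update_of_ne]
  intro h'
  exact h (congrArg Sigma.fst h')

theorem prod_update (x : Ix P → V) (β : B) (j : {k : ν // P β k}) (v : V) :
    ∏ β', (blk b P (update x ⟨β, j⟩ v) β').det =
      (∏ β' ∈ Finset.univ.erase β, (blk b P x β').det) *
        ((blk b P x β).updateRow j (fun k => b.coord k.1 v)).det := by
  rw [← Finset.prod_erase_mul _ _ (Finset.mem_univ β), blk_update_same]
  congr 1
  refine Finset.prod_congr rfl fun β' hβ' => ?_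
  rw [blk_update_ne b P x (Finset.ne_of_mem_erase hβ')]

/-- The product of the determinants of the blocks. -/
def DD : MultilinearMap Ω (fun _ : Ix P => V) Ω where
  toFun x := ∏ β, (blk b P x β).det
  map_update_add' := by
    intro inst x i u v
    obtain ⟨β, j⟩ := i
    have hinst : inst = ixDec P := Subsingleton.elim _ _
    subst hinst
    rw [prod_update, prod_update, prod_update, ← mul_add, ← Matrix.det_updateRow_add]
    congr 3
    funext k
    rw [map_add]
    rfl
  map_update_smul' := by
    intro inst x i c v
    obtain ⟨β, j⟩ := i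
    have hinst : inst = ixDec P := Subsingleton.elim _ _
    subst hinst
    have h1 : (fun k : {k : ν // P β k} => b.coord k.1 (c • v)) =
        c • fun k : {k : ν // P β k} => b.coord k.1 v := by
      funext k
      rw [map_smul]
      rfl
    rw [prod_update, prod_update, smul_eq_mul, h1, Matrix.det_updateRow_smul, mul_left_comm]

theorem DD_apply (x : Ix P → V) : DD b P x = ∏ β, (blk b P x β).det := rfl

/-- The value on the basis vectors. -/
theorem DD_basis : DD b P (fun i => b i.2.1) = 1 := by
  rw [DD_apply]
  refine Finset.prod_eq_one fun β _ => ?_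
  have h1 : blk b P (fun i => b i.2.1) β = 1 := by
    ext j k
    simp only [blk, Matrix.of_apply, Basis.coord_apply, Basis.repr_self]
    rw [Finsupp.single_apply, Matrix.one_apply]
    by_cases h : j = k
    · subst h
      rw [if_pos rfl, if_pos rfl]
    · rw [if_neg h, if_neg]
      exact fun h' => h (Subtype.ext h')
  rw [h1, Matrix.det_one]

/-- The block of an endomorphism. -/
def eblk (X : Module.End Ω V) (β : B) : Matrix {k : ν // P β k} {k : ν // P β k} Ω :=
  Matrix.of fun k l => b.coord k.1 (X (b l.1))

/-- An endomorphism preserves the blocks. -/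
def Pres (X : Module.End Ω V) : Prop :=
  ∀ β k l, P β k → ¬P β l → b.coord k (X (b l)) = 0

theorem coord_apply_of_pres {X : Module.End Ω V} (hX : Pres b P X) (β : B)
    (k : {k : ν // P β k}) (v : V) :
    b.coord k.1 (X v) = ∑ l : {k : ν // P β k}, eblk b P X β k l * b.coord l.1 v := by
  classical
  conv_lhs => rw [← b.sum_repr v]
  rw [map_sum, map_sum]
  have h1 : ∀ l, b.coord k.1 (X (b.repr v l • b l)) = b.repr v l * b.coord k.1 (X (b l)) := by
    intro l
    rw [map_smul, map_smul, smul_eq_mul]
  rw [Finset.sum_congr rfl fun l _ => h1 l]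
  have h2 : ∀ l, b.repr v l * b.coord k.1 (X (b l)) =
      if P β l then b.repr v l * b.coord k.1 (X (b l)) else 0 := by
    intro l
    by_cases h : P β l
    · rw [if_pos h]
    · rw [if_neg h, hX β k.1 l k.2 h, mul_zero]
  have h3 : ∑ l ∈ Finset.univ.filter (P β), b.repr v l * b.coord k.1 (X (b l)) =
      ∑ l : {k : ν // P β k}, b.repr v l.1 * b.coord k.1 (X (b l.1)) :=
    Finset.sum_subtype _ (fun l => by simp) fun l => b.repr v l * b.coord k.1 (X (b l))
  rw [Finset.sum_congr rfl fun l _ => h2 l, ← Finset.sum_filter, h3]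
  refine Finset.sum_congr rfl fun l _ => ?_
  rw [mul_comm]
  rfl

theorem eblk_mul {X Y : Module.End Ω V} (hX : Pres b P X) (β : B) :
    eblk b P (X * Y) β = eblk b P X β * eblk b P Y β := by
  ext k l
  rw [Matrix.mul_apply]
  change b.coord k.1 (X (Y (b l.1))) = _
  rw [coord_apply_of_pres b P hX]
  rfl

theorem eblk_sub (X Y : Module.End Ω V) (β : B) :
    eblk b P (X - Y) β = eblk b P X β - eblk b P Y β := by
  ext k l
  change b.coord k.1 ((X - Y) (b l.1)) = _
  rw [LinearMap.sub_apply, map_sub]
  rfl

/-- The action of an endomorphism which preserves the blocks. -/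
theorem sum_DD {X : Module.End Ω V} (hX : Pres b P X) (x : Ix P → V) :
    ∑ i, DD b P (update x i (X (x i))) = (∑ β, (eblk b P X β).trace) * DD b P x := by
  rw [Fintype.sum_sigma, Finset.sum_mul]
  refine Finset.sum_congr rfl fun β _ => ?_
  have h1 : ∀ j : {k : ν // P β k}, DD b P (update x ⟨β, j⟩ (X (x ⟨β, j⟩))) =
      (∏ β' ∈ Finset.univ.erase β, (blk b P x β').det) *
        ((blk b P x β).updateRow j ((blk b P x β * (eblk b P X β).transpose) j)).det := by
    intro j
    rw [DD_apply, prod_update]
    congr 3
    funext k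
    rw [coord_apply_of_pres b P hX, Matrix.mul_apply]
    refine Finset.sum_congr rfl fun l _ => ?_
    rw [Matrix.transpose_apply, mul_comm]
    rfl
  rw [Finset.sum_congr rfl fun j _ => h1 j, ← Finset.mul_sum, sum_det_updateRow,
    Matrix.trace_transpose, DD_apply, ← Finset.prod_erase_mul _ _ (Finset.mem_univ β)]
  ring

/-- Commutators of endomorphisms which preserve the blocks kill the product of the
determinants. -/
theorem kills_comm {X Y : Module.End Ω V} (hX : Pres b P X) (hY : Pres b P Y) :
    Kills (X * Y - Y * X) (DD b P) := by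
  have hXY : Pres b P (X * Y - Y * X) := by
    intro β k l hk hl
    have e1 : b.coord k ((X * Y) (b l)) = 0 := by
      change b.coord k (X (Y (b l))) = 0
      have e2 := coord_apply_of_pres b P hX β ⟨k, hk⟩ (Y (b l))
      rw [e2]
      refine Finset.sum_eq_zero fun j _ => ?_
      rw [hY β j.1 l j.2 hl, mul_zero]
    have e3 : b.coord k ((Y * X) (b l)) = 0 := by
      change b.coord k (Y (X (b l))) = 0
      have e2 := coord_apply_of_pres b P hY β ⟨k, hk⟩ (X (b l))
      rw [e2]
      refine Finset.sum_eq_zero fun j _ => ?_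
      rw [hX β j.1 l j.2 hl, mul_zero]
    rw [LinearMap.sub_apply, map_sub, e1, e3, sub_zero]
  intro x
  rw [sum_DD b P hXY]
  have h1 : ∑ β, (eblk b P (X * Y - Y * X) β).trace = 0 := by
    refine Finset.sum_eq_zero fun β _ => ?_
    rw [eblk_sub, eblk_mul b P hX, eblk_mul b P hY, Matrix.trace_sub, Matrix.trace_mul_comm,
      sub_self]
  rw [h1, zero_mul]

theorem kills_domDomCongr {κ κ' : Type*} [Fintype κ] [DecidableEq κ] [Fintype κ'] [DecidableEq κ']
    (e : κ ≃ κ') {X : Module.End Ω V} {φ : MultilinearMap Ω (fun _ : κ => V) Ω}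
    (h : Kills X φ) : Kills X (φ.domDomCongr e) := by
  intro v
  rw [← h (fun i => v (e i)), ← Equiv.sum_comp e]
  refine Finset.sum_congr rfl fun i _ => ?_
  rw [MultilinearMap.domDomCongr_apply]
  congr 1
  funext l
  by_cases hl : l = i
  · subst hl
    rw [update_self, update_self]
  · rw [update_of_ne hl, update_of_ne (fun h' => hl (e.injective h'))]

end Pool.Agent.Helper883Det
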