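import Pool.Agent.R918.AV

set_option autoImplicit false
set_option linter.unusedSectionVars false
set_option linter.unusedSimpArgs false
set_option linter.unusedVariables false

/-!
# The points of the torsor of motivated periods given by the Hodge group
-/

open Module Function

noncomputable section

namespace Pool.Agent.Helper883Det

open Pool.Agent.Y102 Pool.Agent.W516.DR Pool.Agent.H204R3.GP Pool.Agent.W516.KC
  Pool.Agent.H204R3.SP

variable {g : ℕ} (A : AbVar g)

/-- The real extension of the periods. -/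
def RR (i : Fin g ⊕ Fin g) : (Fin g → ℂ) →ₗ[ℝ] ℂ := A.lam.constr ℝ fun j => A.dR i (A.bas j)

theorem RR_lam (i : Fin g ⊕ Fin g) (j : Fin (2 * g)) : RR A i (A.lam j) = A.dR i (A.bas j) :=
  A.lam.constr_basis ℝ _ j

theorem RR_per (i : Fin g ⊕ Fin g) (w : A.H1) : RR A i (A.per w) = A.dR i w := by
  have h1 : ((RR A i).restrictScalars ℚ) ∘ₗ A.per = A.dR i := by
    refine A.bas.ext fun j => ?_
    rw [LinearMap.comp_apply, AbVar.per_bas, LinearMap.restrictScalars_apply, RR_lam]
  exact LinearMap.congr_fun h1 w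

variable {κ : Type} [Fintype κ] [DecidableEq κ]

/-- The relation between the real extensions. -/
theorem real_compat {w : ℤ} {a : (κ → Fin g ⊕ Fin g) → QBar}
    {φ : MultilinearMap ℚ (fun _ : κ => A.H1) ℚ} (h : Compat A.dR tau w a φ)
    (u : κ → Fin g → ℂ) :
    tau ^ w * ((A.Phi φ u : ℝ) : ℂ) = ∑ J, algebraMap QBar ℂ (a J) * ∏ l, RR A (J l) (u l) := by
  let M1 : MultilinearMap ℝ (fun _ : κ => Fin g → ℂ) ℂ :=
    ((LinearMap.mulLeft ℝ (tau ^ w : ℂ)).comp (Algebra.linearMap ℝ ℂ)).compMultilinearMap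
      (A.Phi φ)
  let M2 : MultilinearMap ℝ (fun _ : κ => Fin g → ℂ) ℂ :=
    ∑ J : κ → Fin g ⊕ Fin g, algebraMap QBar ℂ (a J) •
      (MultilinearMap.mkPiAlgebra ℝ κ ℂ).compLinearMap fun l => RR A (J l)
  have hM2 : ∀ u, M2 u = ∑ J, algebraMap QBar ℂ (a J) * ∏ l, RR A (J l) (u l) := by
    intro u
    change (∑ J : κ → Fin g ⊕ Fin g, algebraMap QBar ℂ (a J) •
      (MultilinearMap.mkPiAlgebra ℝ κ ℂ).compLinearMap fun l => RR A (J l)) u = _
    rw [MultilinearMap.sum_apply]
    refine Finset.sum_congr rfl fun J _ => ?_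
    rw [MultilinearMap.smul_apply, MultilinearMap.compLinearMap_apply,
      MultilinearMap.mkPiAlgebra_apply, smul_eq_mul]
  have hM : M1 = M2 := by
    refine Basis.ext_multilinear (fun _ => A.lam) fun I => ?_
    rw [hM2]
    change tau ^ w * ((A.Phi φ (fun l => A.lam (I l)) : ℝ) : ℂ) = _
    have h1 : (fun l => A.lam (I l)) = fun l => A.per (A.bas (I l)) := by
      funext l
      rw [AbVar.per_bas]
    rw [h1, AbVar.Phi_per]
    have h2 := h fun l => A.bas (I l)
    simp only [RR_lam]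
    rw [← h2]
    norm_cast
  have h3 := hM2 u
  rw [← hM] at h3
  exact h3

/-- The comparison isomorphism, moved by the complex number `z`. -/
def Fz (z : ℂ) (i : Fin g ⊕ Fin g) : A.H1 →ₗ[ℚ] ℂ :=
  ((RR A i).restrictScalars ℚ) ∘ₗ ((LinearMap.lsmul ℂ (Fin g → ℂ) z).restrictScalars ℚ) ∘ₗ A.per

theorem Fz_apply (z : ℂ) (i : Fin g ⊕ Fin g) (w : A.H1) : Fz A z i w = RR A i (z • A.per w) := rfl

theorem indep_Fz {z : ℂ} (hz : z ≠ 0) : LinearIndependent ℂ (Fz A z) := by
  rw [Fintype.linearIndependent_iff]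
  intro c hc
  have h1 : ∀ w, ∑ i, c i * RR A i (z • A.per w) = 0 := by
    intro w
    have h2 := LinearMap.congr_fun hc w
    rw [LinearMap.sum_apply] at h2
    exact h2
  let F : (Fin g → ℂ) →ₗ[ℝ] ℂ :=
    (∑ i, (LinearMap.mulLeft ℝ (c i)) ∘ₗ RR A i) ∘ₗ
      ((LinearMap.lsmul ℂ (Fin g → ℂ) z).restrictScalars ℝ)
  have hF : ∀ u, F u = ∑ i, c i * RR A i (z • u) := by
    intro u
    change (∑ i, (LinearMap.mulLeft ℝ (c i)) ∘ₗ RR A i) (z • u) = _
    rw [LinearMap.sum_apply]
    rfl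
  have h3 : F = 0 := by
    refine A.ext_per fun w => ?_
    rw [hF, h1]
    rfl
  have h4 : ∑ i, c i • A.dR i = 0 := by
    refine LinearMap.ext fun w => ?_
    have h5 := hF (z⁻¹ • A.per w)
    rw [h3, smul_smul, mul_inv_cancel₀ hz, one_smul] at h5
    rw [LinearMap.sum_apply]
    change ∑ i, c i * A.dR i w = 0
    rw [LinearMap.zero_apply] at h5
    rw [h5]
    exact Finset.sum_congr rfl fun i _ => by rw [RR_per]
  exact Fintype.linearIndependent_iff.1 A.indep_dR c h4

theorem tau_pow_ne (w : ℤ) : (tau : ℂ) ^ w ≠ 0 := zpow_ne_zero w AbVar.tau_ne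

/-- Compatibility of the moved comparison isomorphism. -/
theorem compat_Fz_iff {w : ℤ} {a : (κ → Fin g ⊕ Fin g) → QBar}
    {φ : MultilinearMap ℚ (fun _ : κ => A.H1) ℚ} (h : Compat A.dR tau w a φ) (z : ℂ) :
    Compat (Fz A z) tau w a φ ↔
      ∀ v : κ → A.H1, A.Phi φ (fun l => z • A.per (v l)) = φ v := by
  have key : ∀ v : κ → A.H1, ∑ J, algebraMap QBar ℂ (a J) * ∏ l, Fz A z (J l) (v l) =
      tau ^ w * ((A.Phi φ (fun l => z • A.per (v l)) : ℝ) : ℂ) := by
    intro v
    rw [real_compat A h]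
    rfl
  constructor
  · intro h1 v
    have h2 := h1 v
    rw [key] at h2
    have h3 := mul_left_cancel₀ (tau_pow_ne w) h2
    exact_mod_cast h3.symm
  · intro h1 v
    rw [key, h1]
    norm_cast

/-- A de Rham-Betti class is a Hodge class if and only if it is compatible with the moved
comparison isomorphisms. -/
theorem hodge_iff_Fz {w : ℤ} {a : (κ → Fin g ⊕ Fin g) → QBar}
    {φ : MultilinearMap ℚ (fun _ : κ => A.H1) ℚ} (h : Compat A.dR tau w a φ) :
    IsHodgeTensor (A.per : A.H1 →+ (Fin g → ℂ)) φ ↔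
      ∀ z : ℂ, ‖z‖ = 1 → Compat (Fz A z) tau w a φ := by
  constructor
  · rintro ⟨Ψ, h1, h2⟩ z hz
    have hΨ : Ψ = A.Phi φ := by
      refine Basis.ext_multilinear (fun _ => A.lam) fun I => ?_
      have h3 : (fun l => A.lam (I l)) = fun l => A.per (A.bas (I l)) := by
        funext l
        rw [AbVar.per_bas]
      rw [h3, AbVar.Phi_per]
      exact h1 _
    rw [compat_Fz_iff A h]
    intro v
    rw [← hΨ, h2 z hz]
    exact h1 v
  · intro h1
    refine ⟨A.Phi φ, fun v => A.Phi_per φ v, fun z hz u => ?_⟩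
    have h2 := (compat_Fz_iff A h z).1 (h1 z hz)
    let M : MultilinearMap ℝ (fun _ : κ => Fin g → ℂ) ℝ :=
      (A.Phi φ).compLinearMap fun _ => (LinearMap.lsmul ℂ (Fin g → ℂ) z).restrictScalars ℝ
    have hM : M = A.Phi φ := by
      refine Basis.ext_multilinear (fun _ => A.lam) fun I => ?_
      have h3 : (fun l => A.lam (I l)) = fun l => A.per (A.bas (I l)) := by
        funext l
        rw [AbVar.per_bas]
      rw [h3, AbVar.Phi_per]
      exact h2 _
    exact congrArg (fun F : MultilinearMap ℝ (fun _ : κ => Fin g → ℂ) ℝ => F u) hM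

end Pool.Agent.Helper883Det
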