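import Pool.Agent.Helper883_Det.Centre
import Pool.Agent.Helper883_Det.Tor
import Pool.Agent.Y102.AV12

set_option autoImplicit false
set_option linter.unusedSectionVars false
set_option linter.unusedSimpArgs false
set_option linter.unusedVariables false

/-!
# The main theorem
-/

open Module Function TensorProduct

noncomputable section

namespace Pool.Agent.Helper883Det

open Pool.Agent.Y102 Pool.Agent.W516.DR Pool.Agent.H204R3.GP Pool.Agent.W516.KC
  Pool.Agent.H204R3.SP

variable {g : ℕ} (A : AbVar g)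

/-- All determinantal de Rham-Betti classes are Hodge classes. -/
def DetHodge : Prop :=
  ∀ (m : ℕ) (φ : MultilinearMap ℚ (fun _ : Fin m × Fin 2 => A.H1) ℚ),
    IsDeRhamBettiForm QBar A.dR tau m φ → Det A φ →
      IsHodgeTensor (A.per : A.H1 →+ (Fin g → ℂ)) φ

/-- All de Rham-Betti classes are Hodge classes. -/
def AllHodge : Prop :=
  ∀ (m : ℕ) (φ : MultilinearMap ℚ (fun _ : Fin m × Fin 2 => A.H1) ℚ),
    IsDeRhamBettiForm QBar A.dR tau m φ → IsHodgeTensor (A.per : A.H1 →+ (Fin g → ℂ)) φ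

/-- The Casimir class is a Hodge class if and only if the derived algebras coincide. -/
theorem cas_iff_derived : IsHodgeTensor (A.per : A.H1 →+ (Fin g → ℂ)) A.cas ↔
    ∀ X ∈ A.NA, ∀ Y ∈ A.NA, X * Y - Y * X ∈ A.LA := by
  constructor
  · intro hcas X hX Y hY
    obtain ⟨X', hX', hP⟩ := A.NA_split hX (hX 2 _ hcas A.cas_drb)
    obtain ⟨Y', hY', hQ⟩ := A.NA_split hY (hY 2 _ hcas A.cas_drb)
    have e1 : X' * (Y - Y') = (Y - Y') * X' := hQ.2 X' (A.LA_le_NA hX')
    have e2 : Y' * (X - X') = (X - X') * Y' := hP.2 Y' (A.LA_le_NA hY')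
    have e3 : (Y - Y') * (X - X') = (X - X') * (Y - Y') := hP.2 _ hQ.1
    have e4 : X * Y - Y * X = X' * Y' - Y' * X' := by
      have e5 : X = X' + (X - X') := (add_sub_cancel _ _).symm
      have e6 : Y = Y' + (Y - Y') := (add_sub_cancel _ _).symm
      generalize X - X' = P at *
      generalize Y - Y' = Q at *
      subst e5 e6
      rw [add_mul, mul_add, mul_add, add_mul, mul_add, mul_add, e1, ← e3, ← e2]
      abel
    rw [e4]
    exact A.LA_bracket hX' hY'
  · exact A.cas_hodge_of_rigid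

/-- The Casimir class is a Hodge class if and only if the Lie algebra is an ideal. -/
theorem cas_iff_ideal : IsHodgeTensor (A.per : A.H1 →+ (Fin g → ℂ)) A.cas ↔
    ∀ X ∈ A.NA, ∀ Y ∈ A.LA, X * Y - Y * X ∈ A.LA := by
  constructor
  · intro hcas X hX Y hY
    exact (cas_iff_derived A).1 hcas X hX Y (A.LA_le_NA hY)
  · intro h
    refine hodge_of_kills _ A.isRationalStructure _ fun Z hZ => ?_
    have hZN : Z ∈ A.NA := A.MA_le_NA hZ
    exact A.cas_kills (A.NA_skew hZN) fun Y hY => h Z hZN Y hY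

theorem CN_le_ZA : A.CN ≤ A.ZA := A.CN_le_ZA

/-- **The determinantal classes decide about the centre.** -/
theorem det_iff_centre : DetHodge A ↔ A.CN ≤ A.LA := by
  constructor
  · intro h z hz
    exact ZA_mem A (A.CN_le_ZA hz) fun m φ hφ hd => hz.1 m φ (h m φ hφ hd) hφ
  · intro h m φ hφ hd
    refine hodge_of_kills _ A.isRationalStructure φ fun Z hZ => ?_
    let S : Submodule ℚ (Module.End ℚ A.H1) :=
      { carrier := {X | Kills X φ}
        zero_mem' := kills_zero'
        add_mem' := fun hX hY => kills_add' hX hY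
        smul_mem' := fun c _ hX => kills_smul' c hX }
    have hle : A.NA ≤ S :=
      le_of_trace A.NA A.trace_NA (fun X hX Y hY => A.NA_bracket hX hY)
        (fun X hX hc htr => A.NA_pos hX hc htr)
        (fun X hX Y hY => hd X Y (fun R hR => A.NA_comm hX hR.1) fun R hR => A.NA_comm hY hR.1)
        fun X hX hc => h (⟨hX, hc⟩ : X ∈ A.CN) m φ hφ
    exact hle (A.MA_le_NA hZ)

/-- **The main theorem.** -/
theorem all_iff : AllHodge A ↔
    IsHodgeTensor (A.per : A.H1 →+ (Fin g → ℂ)) A.cas ∧ DetHodge A := by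
  constructor
  · intro h
    exact ⟨h 2 _ A.cas_drb, fun m φ hφ _ => h m φ hφ⟩
  · rintro ⟨hcas, hdet⟩ m φ hφ
    refine hodge_of_kills _ A.isRationalStructure φ fun Z hZ => ?_
    obtain ⟨Y, hY, Z', hZ', rfl⟩ := Submodule.mem_sup.1 (A.NA_le_of_cas hcas (A.MA_le_NA hZ))
    exact A.kills_sum (hY m φ hφ) ((det_iff_centre A).1 hdet hZ' m φ hφ)

/-- Without factors of type IV the determinantal classes are Hodge classes. -/
theorem det_of_noTypeIV (h : ∀ R ∈ A.ZA, R = 0) : DetHodge A :=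
  (det_iff_centre A).2 fun z hz => by
    rw [h z (A.CN_le_ZA hz)]
    exact A.LA.zero_mem

/-- Classes in all tensor powers. -/
theorem det_all_of (h : DetHodge A) {r : ℕ} {w : ℤ} {c : (Fin r → Fin g ⊕ Fin g) → QBar}
    {φ : MultilinearMap ℚ (fun _ : Fin r => A.H1) ℚ} (hφ : Compat A.dR tau w c φ)
    (hd : Det A φ) : IsHodgeTensor (A.per : A.H1 →+ (Fin g → ℂ)) φ := by
  by_cases h0 : φ = 0
  · subst h0
    refine ⟨0, fun v => ?_, fun z _ u => ?_⟩
    · rw [MultilinearMap.zero_apply, MultilinearMap.zero_apply, Rat.cast_zero]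
    · rw [MultilinearMap.zero_apply, MultilinearMap.zero_apply]
  have hw := A.weight hφ h0
  rw [Fintype.card_fin] at hw
  obtain ⟨m, rfl⟩ : ∃ m : ℕ, w = m := ⟨w.toNat, by omega⟩
  have hr : r = m * 2 := by omega
  subst hr
  let e : Fin (m * 2) ≃ Fin m × Fin 2 := finProdFinEquiv.symm
  have h1 := (Compat.reindex e).2 hφ
  have h2 : IsDeRhamBettiForm QBar A.dR tau m (φ.domDomCongr e) := by
    refine ⟨fun J => c (J ∘ e), fun v => ?_⟩
    have h3 := h1 v
    rw [zpow_natCast] at h3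
    exact h3
  exact A.hodge_reindex e (h m _ h2 fun X Y hX hY => kills_domDomCongr e (hd X Y hX hY))

/-- The converse. -/
theorem det_of_all (h : ∀ (r : ℕ) (w : ℤ) (c : (Fin r → Fin g ⊕ Fin g) → QBar)
    (φ : MultilinearMap ℚ (fun _ : Fin r => A.H1) ℚ), Compat A.dR tau w c φ → Det A φ →
      IsHodgeTensor (A.per : A.H1 →+ (Fin g → ℂ)) φ) : DetHodge A := by
  rintro m φ ⟨a, ha⟩ hd
  let e : Fin m × Fin 2 ≃ Fin (m * 2) := finProdFinEquiv
  have h1 : Compat A.dR tau m a φ := by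
    intro v
    rw [zpow_natCast]
    exact ha v
  exact A.hodge_reindex e (h _ _ _ _ ((Compat.reindex e).2 h1)
    fun X Y hX hY => kills_domDomCongr e (hd X Y hX hY))

theorem domDomCongr_symm {κ κ' : Type} (e : κ ≃ κ')
    (φ : MultilinearMap ℚ (fun _ : κ => A.H1) ℚ) : (φ.domDomCongr e).domDomCongr e.symm = φ := by
  ext x
  rw [MultilinearMap.domDomCongr_apply, MultilinearMap.domDomCongr_apply]
  congr 1
  funext i
  rw [Equiv.symm_apply_apply]

theorem hodge_reindex_iff {κ κ' : Type} (e : κ ≃ κ')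
    {φ : MultilinearMap ℚ (fun _ : κ => A.H1) ℚ} :
    IsHodgeTensor (A.per : A.H1 →+ (Fin g → ℂ)) (φ.domDomCongr e) ↔
      IsHodgeTensor (A.per : A.H1 →+ (Fin g → ℂ)) φ :=
  ⟨A.hodge_reindex e, fun h => A.hodge_reindex e.symm (by rwa [domDomCongr_symm])⟩

/-- The Casimir class as a form in four variables. -/
def cas4 : MultilinearMap ℚ (fun _ : Fin 4 => A.H1) ℚ :=
  A.cas.domDomCongr (finProdFinEquiv : Fin 2 × Fin 2 ≃ Fin 4)

theorem cas4_hodge : IsHodgeTensor (A.per : A.H1 →+ (Fin g → ℂ)) (cas4 A) ↔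
    IsHodgeTensor (A.per : A.H1 →+ (Fin g → ℂ)) A.cas := hodge_reindex_iff A _

theorem cas4_drb : ∃ c, Compat A.dR tau 2 c (cas4 A) := by
  obtain ⟨a, ha⟩ := A.cas_drb
  have h1 : Compat A.dR tau ((2 : ℕ) : ℤ) a A.cas := by
    intro v
    rw [zpow_natCast]
    exact ha v
  exact ⟨_, (Compat.reindex (finProdFinEquiv : Fin 2 × Fin 2 ≃ Fin 4)).2 h1⟩

/-- All classes in all tensor powers. -/
theorem all_iff_all : AllHodge A ↔ ∀ (r : ℕ) (w : ℤ) (c : (Fin r → Fin g ⊕ Fin g) → QBar)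
    (φ : MultilinearMap ℚ (fun _ : Fin r => A.H1) ℚ), Compat A.dR tau w c φ →
      IsHodgeTensor (A.per : A.H1 →+ (Fin g → ℂ)) φ := by
  constructor
  · exact fun h r w c φ hφ => R918.hodge_all_of h hφ
  · rintro h m φ ⟨a, ha⟩
    let e : Fin m × Fin 2 ≃ Fin (m * 2) := finProdFinEquiv
    have h1 : Compat A.dR tau m a φ := by
      intro v
      rw [zpow_natCast]
      exact ha v
    exact A.hodge_reindex e (h _ _ _ _ ((Compat.reindex e).2 h1))

end Pool.Agent.Helper883Det
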