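import Pool.Agent.Helper883_Det.Main

set_option autoImplicit false
set_option linter.unusedSectionVars false
set_option linter.unusedSimpArgs false
set_option linter.unusedVariables false

/-!
# Abelian varieties of Weil type: the determinantal classes are Hodge classes
-/

open Module Function TensorProduct

noncomputable section

namespace Pool.Agent.Helper883Det

open Pool.Agent.Y102 Pool.Agent.W516.DR Pool.Agent.H204R3.GP Pool.Agent.W516.KC
  Pool.Agent.H204R3.SP

variable {g : ℕ} (A : AbVar g)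

/-- The commutant of the skew central endomorphisms. -/
def CC : Submodule ℚ (Module.End ℚ A.H1) where
  carrier := {X | ∀ R ∈ A.ZA, X * R = R * X}
  zero_mem' := fun R _ => by rw [mul_zero, zero_mul]
  add_mem' := fun {P Q} hP hQ R hR => by rw [mul_add, add_mul, hP R hR, hQ R hR]
  smul_mem' := fun c P hP R hR => by rw [mul_smul_comm, smul_mul_assoc, hP R hR]

variable {A}

theorem mem_CC {X : Module.End ℚ A.H1} : X ∈ CC A ↔ ∀ R ∈ A.ZA, X * R = R * X := Iff.rfl

theorem CC_mul {X Y : Module.End ℚ A.H1} (hX : X ∈ CC A) (hY : Y ∈ CC A) : X * Y ∈ CC A :=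
  fun R hR => by rw [mul_assoc, hY R hR, ← mul_assoc, hX R hR, mul_assoc]

theorem CC_br {X Y : Module.End ℚ A.H1} (hX : X ∈ CC A) (hY : Y ∈ CC A) :
    X * Y - Y * X ∈ CC A := (CC A).sub_mem (CC_mul hX hY) (CC_mul hY hX)

theorem CC_one : (1 : Module.End ℚ A.H1) ∈ CC A := fun R _ => by rw [one_mul, mul_one]

theorem ZA_le_CC : A.ZA ≤ CC A := fun X hX R hR => hX.2.2 R hR.1

theorem LA_le_CC : A.LA ≤ CC A := fun X hX R hR => hR.1 X hX

theorem EA_le_CC : A.EA ≤ CC A := fun X hX R hR => (hR.2.2 X hX).symm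

/-- Symmetry of the adjoint. -/
theorem adj_symm {X X' : Module.End ℚ A.H1} (h : ∀ u v, A.om (X u) v = A.om u (X' v)) (u v : A.H1) :
    A.om (X' u) v = A.om u (X v) := by
  rw [A.om_anti, ← h, ← A.om_anti]

theorem CC_adj {X X' : Module.End ℚ A.H1} (hX : X ∈ CC A)
    (h : ∀ u v, A.om (X u) v = A.om u (X' v)) : X' ∈ CC A := by
  intro R hR
  refine LinearMap.ext fun v => ?_
  rw [← sub_eq_zero]
  apply A.om_nondeg
  intro u
  have hs := hR.2.1
  have e0 : X (R u) = R (X u) := congrArg (fun T : Module.End ℚ A.H1 => T u) (hX R hR)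
  have e1 := h u (R v)
  have e2 := hs (X u) v
  have e3 := hs u (X' v)
  have e4 := h (R u) v
  rw [e0] at e4
  rw [A.om_anti, map_sub, Module.End.mul_apply, Module.End.mul_apply, neg_eq_zero]
  linear_combination -e1 + e2 - e3 - e4

/-- The complex structure commutes with the skew central endomorphisms. -/
theorem J_mem_CC (f : ℝ →ₗ[ℚ] ℚ) : A.cmpE f AbVar.JJ ∈ CC A := by
  intro R hR
  obtain ⟨M, hM⟩ := A.hodge_end (A.mem_EA.1 hR.1)
  have hext : ∀ u, A.ext R u = M u := by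
    intro u
    have h1 : A.ext R = M.restrictScalars ℝ := A.ext_per fun w => by
      rw [AbVar.ext_apply]
      exact (hM w).symm
    rw [h1]
    rfl
  refine A.cmpE_comm f fun u => ?_
  rw [AbVar.JJ_apply, AbVar.JJ_apply, hext, hext, map_smul]

/-- The commutant acts semisimply. -/
theorem semi_CC : Semi (CC A) := by
  intro U hU
  let U' : Submodule ℚ A.H1 :=
    { carrier := {v | ∀ u ∈ U, A.om u v = 0}
      zero_mem' := fun u _ => map_zero _
      add_mem' := fun {v w} hv hw u hu => by rw [map_add, hv u hu, hw u hu, add_zero]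
      smul_mem' := fun c v hv u hu => by rw [map_smul, hv u hu, smul_zero] }
  have hstab : ∀ X ∈ CC A, ∀ u ∈ U', X u ∈ U' := by
    intro X hX v hv u hu
    obtain ⟨X', h⟩ := A.exists_adj X
    have h2 : A.om (X' u) v = 0 := hv _ (hU X' (CC_adj hX h) u hu)
    rwa [adj_symm h] at h2
  have hdisj : U ⊓ U' = ⊥ := by
    rw [eq_bot_iff]
    rintro u ⟨hu, hu'⟩
    rw [Submodule.mem_bot]
    have h1 : A.E (Complex.I • A.per u) (A.per u) = 0 := by
      apply exists_sep
      intro f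
      rw [← AbVar.om_cmp]
      exact hu' _ (hU _ (J_mem_CC f) u hu)
    apply A.per_inj
    rw [map_zero]
    by_contra hne
    have h2 := A.E_pos hne
    rw [A.E_anti, h1, neg_zero] at h2
    exact lt_irrefl _ h2
  have hU' : U' = LinearMap.BilinForm.orthogonal (A.om : LinearMap.BilinForm ℚ A.H1) U := by
    ext v
    rw [LinearMap.BilinForm.mem_orthogonal_iff]
    rfl
  refine ⟨U', hstab, ?_⟩
  rw [hU', LinearMap.BilinForm.isCompl_orthogonal_iff_disjoint A.om_isRefl, disjoint_iff, ← hU']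
  exact hdisj

/-- The trace of an endomorphism and of its adjoint. -/
theorem trace_adj {X X' : Module.End ℚ A.H1} (h : ∀ u v, A.om (X u) v = A.om u (X' v)) :
    LinearMap.trace ℚ A.H1 X' = LinearMap.trace ℚ A.H1 X := by
  have hinj : Function.Injective A.om := by
    rw [← LinearMap.ker_eq_bot, LinearMap.ker_eq_bot']
    intro u hu
    exact A.om_nondeg fun v => by rw [hu, LinearMap.zero_apply]
  let e : A.H1 ≃ₗ[ℚ] Module.Dual ℚ A.H1 :=
    LinearEquiv.ofInjectiveOfFinrankEq A.om hinj (Subspace.dual_finrank_eq).symm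
  have he : ∀ u, e u = A.om u := fun u => rfl
  have h1 : e.conj X = Module.Dual.transpose (R := ℚ) X' := by
    refine LinearMap.ext fun f => ?_
    obtain ⟨u, rfl⟩ := e.surjective f
    rw [LinearEquiv.conj_apply_apply, LinearEquiv.symm_apply_apply]
    refine LinearMap.ext fun v => ?_
    rw [he, he]
    exact h u v
  have h2 := LinearMap.trace_conj' X e
  rw [h1, LinearMap.trace_transpose'] at h2
  exact h2

theorem trace_skew {X : Module.End ℚ A.H1} (hX : IsSkew A.om X) :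
    LinearMap.trace ℚ A.H1 X = 0 := by
  have h1 := trace_adj (X := X) (X' := -X) fun u v => by
    rw [LinearMap.neg_apply, map_neg]
    linear_combination hX u v
  rw [map_neg] at h1
  linarith

/-- Central elements of the commutant are endomorphisms. -/
theorem centre_EA {X : Module.End ℚ A.H1} (hc : ∀ Y ∈ CC A, Y * X = X * Y) : X ∈ A.EA :=
  fun Y hY => hc Y (LA_le_CC hY)

theorem centre_ZA {X : Module.End ℚ A.H1} (hc : ∀ Y ∈ CC A, Y * X = X * Y)
    (hs : IsSkew A.om X) : X ∈ A.ZA :=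
  ⟨centre_EA hc, hs, fun Q hQ => (hc Q (EA_le_CC hQ)).symm⟩

theorem adj_mul {X X' Y Y' : Module.End ℚ A.H1} (h : ∀ u v, A.om (X u) v = A.om u (X' v))
    (h' : ∀ u v, A.om (Y u) v = A.om u (Y' v)) (u v : A.H1) :
    A.om ((X * Y) u) v = A.om u ((Y' * X') v) := by
  rw [Module.End.mul_apply, Module.End.mul_apply, h, h']

theorem adj_unique {X Y Y' : Module.End ℚ A.H1} (h : ∀ u v, A.om (X u) v = A.om u (Y v))
    (h' : ∀ u v, A.om (X u) v = A.om u (Y' v)) : Y = Y' := by
  refine LinearMap.ext fun v => ?_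
  rw [← sub_eq_zero]
  apply A.om_nondeg
  intro u
  rw [A.om_anti, map_sub, ← h, ← h', sub_self, neg_zero]

/-- The adjoint of a central element is central. -/
theorem centre_adj {X X' : Module.End ℚ A.H1} (hc : ∀ Y ∈ CC A, Y * X = X * Y)
    (h : ∀ u v, A.om (X u) v = A.om u (X' v)) : ∀ Y ∈ CC A, Y * X' = X' * Y := by
  intro Y hY
  obtain ⟨Y', h'⟩ := A.exists_adj Y
  have h1 := hc Y' (CC_adj hY h')
  have e1 := adj_mul h (adj_symm h')
  have e2 := adj_mul (adj_symm h') h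
  rw [h1] at e2
  exact adj_unique e1 e2

/-- Positivity of the trace form, symmetric elements. -/
theorem trace_sq_sym {X : Module.End ℚ A.H1} {M : (Fin g → ℂ) →ₗ[ℂ] (Fin g → ℂ)}
    (hM : ∀ w, M (A.per w) = A.per (X w)) (hs : ∀ u v, A.om (X u) v = A.om u (X v))
    (h0 : LinearMap.trace ℚ A.H1 (X * X) = 0) : X = 0 := by
  classical
  have hsk : ∀ u v, A.E (M u) v = A.E u (M v) := by
    have h2 : A.E.comp (M.restrictScalars ℝ) = (A.E.flip.comp (M.restrictScalars ℝ)).flip := by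
      refine A.ext_per fun u => A.ext_per fun v => ?_
      change A.E (M (A.per u)) (A.per v) = A.E (A.per u) (M (A.per v))
      rw [hM, hM, ← AbVar.om_coe, ← AbVar.om_coe, hs]
    intro u v
    exact congrArg (fun F : (Fin g → ℂ) →ₗ[ℝ] (Fin g → ℂ) →ₗ[ℝ] ℝ => F u v) h2
  have hPF : ∀ u v, A.PF (M u) v = A.PF u (M v) := fun u v => by
    rw [AbVar.PF_apply, AbVar.PF_apply, hsk, map_smul]
  have htr : LinearMap.trace ℝ (Fin g → ℂ) ((M.comp M).restrictScalars ℝ) = 0 := by
    rw [← A.trace_real (X := X * X) (M := (M.comp M).restrictScalars ℝ), h0, Rat.cast_zero]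
    intro w
    change M (M (A.per w)) = A.per (X (X w))
    rw [hM, hM]
  have hsym : LinearMap.IsSymm (A.PF) := ⟨fun u v => by rw [RingHom.id_apply]; exact A.PF_symm u v⟩
  obtain ⟨v, hv⟩ := LinearMap.BilinForm.exists_orthogonal_basis hsym
  have hrepr : ∀ x i, v.repr x i * A.PF (v i) (v i) = A.PF x (v i) := by
    intro x i
    conv_rhs => rw [← v.sum_repr x]
    rw [map_sum, LinearMap.sum_apply, Finset.sum_eq_single i]
    · rw [map_smul, LinearMap.smul_apply, smul_eq_mul]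
    · intro j _ hj
      rw [map_smul, LinearMap.smul_apply]
      have h1 : A.PF (v j) (v i) = 0 := hv hj
      rw [h1, smul_zero]
    · intro h
      exact absurd (Finset.mem_univ _) h
  have hpos : ∀ i, 0 < A.PF (v i) (v i) := fun i => A.PF_pos (v.ne_zero i)
  have hterm : ∀ i, v.repr (M (M (v i))) i = A.PF (M (v i)) (M (v i)) / A.PF (v i) (v i) := by
    intro i
    have h1 := hrepr (M (M (v i))) i
    rw [hPF] at h1
    rw [eq_div_iff (hpos i).ne']
    exact h1
  rw [LinearMap.trace_eq_matrix_trace ℝ v, Matrix.trace] at htr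
  have hsum : ∑ i, A.PF (M (v i)) (M (v i)) / A.PF (v i) (v i) = 0 := by
    rw [← htr]
    refine Finset.sum_congr rfl fun i _ => ?_
    rw [Matrix.diag_apply, LinearMap.toMatrix_apply]
    exact (hterm i).symm
  have hnn : ∀ i ∈ Finset.univ, 0 ≤ A.PF (M (v i)) (M (v i)) / A.PF (v i) (v i) := by
    intro i _
    refine div_nonneg ?_ (hpos i).le
    by_cases h : M (v i) = 0
    · rw [h, map_zero]
    · exact (A.PF_pos h).le
  have hM0 : ∀ i, M (v i) = 0 := by
    intro i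
    have h1 := (Finset.sum_eq_zero_iff_of_nonneg hnn).1 hsum i (Finset.mem_univ _)
    by_contra hne
    rw [div_eq_zero_iff] at h1
    rcases h1 with h1 | h1
    · exact (A.PF_pos hne).ne' h1
    · exact (hpos i).ne' h1
  have hM1 : M.restrictScalars ℝ = 0 := v.ext fun i => hM0 i
  refine LinearMap.ext fun w => A.per_inj ?_
  rw [← hM, LinearMap.zero_apply, map_zero]
  exact congrArg (fun F : (Fin g → ℂ) →ₗ[ℝ] (Fin g → ℂ) => F (A.per w)) hM1

/-- A skew element and a symmetric element which commute. -/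
theorem skew_mul {K S : Module.End ℚ A.H1} (hK : IsSkew A.om K)
    (hS : ∀ u v, A.om (S u) v = A.om u (S v)) (hc : K * S = S * K) : IsSkew A.om (K * S) := by
  intro u v
  have e1 := hK (S u) v
  have e2 := hS u (K v)
  have e3 : K (S v) = S (K v) := congrArg (fun T : Module.End ℚ A.H1 => T v) hc
  rw [Module.End.mul_apply, Module.End.mul_apply, e3]
  linear_combination e1 - e2

/-- The symmetric and the skew part. -/
theorem decomp (X : Module.End ℚ A.H1) : ∃ X', (∀ u v, A.om (X u) v = A.om u (X' v)) ∧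
    (∀ u v, A.om (((2 : ℚ)⁻¹ • (X + X')) u) v = A.om u (((2 : ℚ)⁻¹ • (X + X')) v)) ∧
    IsSkew A.om ((2 : ℚ)⁻¹ • (X - X')) ∧
    X = (2 : ℚ)⁻¹ • (X + X') + (2 : ℚ)⁻¹ • (X - X') := by
  obtain ⟨X', h⟩ := A.exists_adj X
  have h' := adj_symm h
  refine ⟨X', h, fun u v => ?_, fun u v => ?_, ?_⟩
  · simp only [LinearMap.smul_apply, LinearMap.add_apply, map_smul, map_add, smul_eq_mul]
    linear_combination (2 : ℚ)⁻¹ * (h u v) + (2 : ℚ)⁻¹ * (h' u v)
  · simp only [LinearMap.smul_apply, LinearMap.sub_apply, map_smul, map_sub, smul_eq_mul]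
    linear_combination (2 : ℚ)⁻¹ * (h u v) - (2 : ℚ)⁻¹ * (h' u v)
  · rw [← smul_add]
    have : X + X' + (X - X') = (2 : ℚ) • X := by
      rw [two_smul]
      abel
    rw [this, smul_smul, inv_mul_cancel₀ two_ne_zero, one_smul]

theorem centre_smul {X : Module.End ℚ A.H1} (c : ℚ) (hc : ∀ Y ∈ CC A, Y * X = X * Y) :
    ∀ Y ∈ CC A, Y * (c • X) = (c • X) * Y := fun Y hY => by
  rw [mul_smul_comm, smul_mul_assoc, hc Y hY]

theorem centre_add {X X' : Module.End ℚ A.H1} (hc : ∀ Y ∈ CC A, Y * X = X * Y)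
    (hc' : ∀ Y ∈ CC A, Y * X' = X' * Y) : ∀ Y ∈ CC A, Y * (X + X') = (X + X') * Y :=
  fun Y hY => by rw [mul_add, add_mul, hc Y hY, hc' Y hY]

theorem centre_sub {X X' : Module.End ℚ A.H1} (hc : ∀ Y ∈ CC A, Y * X = X * Y)
    (hc' : ∀ Y ∈ CC A, Y * X' = X' * Y) : ∀ Y ∈ CC A, Y * (X - X') = (X - X') * Y :=
  fun Y hY => by rw [mul_sub, sub_mul, hc Y hY, hc' Y hY]

/-- The trace form of the commutant is nondegenerate. -/
theorem trace_CC : Pool.Agent.W516.KC2.TraceNondeg (CC A) := by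
  intro X hX htr
  have hc := central_of_trace (CC A) semi_CC (fun X hX Y hY => CC_br hX hY) hX htr
  obtain ⟨X', h, hS, hK, hXe⟩ := decomp X
  have hc' := centre_adj hc h
  have hcS := centre_smul (2 : ℚ)⁻¹ (centre_add hc hc')
  have hcK := centre_smul (2 : ℚ)⁻¹ (centre_sub hc hc')
  have hX' := CC_adj hX h
  have hSC : (2 : ℚ)⁻¹ • (X + X') ∈ CC A := (CC A).smul_mem _ ((CC A).add_mem hX hX')
  have hKC : (2 : ℚ)⁻¹ • (X - X') ∈ CC A := (CC A).smul_mem _ ((CC A).sub_mem hX hX')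
  generalize (2 : ℚ)⁻¹ • (X + X') = S at *
  generalize (2 : ℚ)⁻¹ • (X - X') = K at *
  have h0 : LinearMap.trace ℚ A.H1 (K * S) = 0 := trace_skew (skew_mul hK hS (hcS K hKC))
  have h0' : LinearMap.trace ℚ A.H1 (S * K) = 0 := by rw [LinearMap.trace_mul_comm, h0]
  have hK0 : K = 0 := by
    obtain ⟨M, hM⟩ := A.hodge_end (A.mem_EA.1 (centre_EA hcK))
    refine A.trace_sq hM hK ?_
    have h1 := htr K hKC
    rw [hXe, add_mul, map_add, h0', zero_add] at h1
    exact h1
  have hS0 : S = 0 := by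
    obtain ⟨M, hM⟩ := A.hodge_end (A.mem_EA.1 (centre_EA hcS))
    refine trace_sq_sym hM hS ?_
    have h1 := htr S hSC
    rw [hXe, add_mul, map_add, h0, add_zero] at h1
    exact h1
  rw [hXe, hK0, hS0, add_zero]

/-- Elements orthogonal to the centre are sums of commutators. -/
theorem mem_comm {X : Module.End ℚ A.H1} (hX : X ∈ CC A)
    (htr : ∀ Z ∈ CC A, (∀ Y ∈ CC A, Y * Z = Z * Y) → LinearMap.trace ℚ A.H1 (Z * X) = 0)
    {S : Submodule ℚ (Module.End ℚ A.H1)}
    (hS : ∀ Y ∈ CC A, ∀ Z ∈ CC A, Y * Z - Z * Y ∈ S) : X ∈ S := by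
  by_contra hcon
  let T : Submodule ℚ (Module.End ℚ A.H1) := S ⊓ CC A
  have hZT : X ∉ T := fun h => hcon h.1
  obtain ⟨f, hf1, hf2⟩ := Submodule.exists_dual_map_eq_bot_of_notMem hZT inferInstance
  let f' : Module.Dual ℚ (CC A) := f.comp (CC A).subtype
  let W := (Pool.Agent.W516.KC2.trE (CC A) trace_CC).symm f'
  have hW : ∀ X : CC A, LinearMap.trace ℚ A.H1 (W.1 * X.1) = f X.1 := fun X =>
    Pool.Agent.W516.KC2.trE_symm (CC A) trace_CC f' X
  have hf0 : ∀ X ∈ T, f X = 0 := by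
    intro X hX
    have h3 : f X ∈ Submodule.map f T := Submodule.mem_map_of_mem hX
    rwa [hf2, Submodule.mem_bot] at h3
  have hcen : ∀ Y ∈ CC A, Y * W.1 = W.1 * Y := by
    intro Y hY
    have h4 : W.1 * Y - Y * W.1 = 0 := by
      refine trace_CC _ (CC_br W.2 hY) fun X hX => ?_
      have h5 := hW ⟨_, CC_br hY hX⟩
      rw [hf0 _ ⟨hS Y hY X hX, CC_br hY hX⟩] at h5
      rw [← h5, sub_mul, mul_sub, map_sub, map_sub, mul_assoc W.1 Y X, mul_assoc Y W.1 X,
        LinearMap.trace_mul_comm ℚ Y (W.1 * X), mul_assoc W.1 X Y]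
    rw [sub_eq_zero] at h4
    exact h4.symm
  have h6 := hW ⟨X, hX⟩
  rw [htr W.1 W.2 hcen] at h6
  exact hf1 h6.symm

/-- The trace of a component. -/
theorem trace_cmpE (f : ℝ →ₗ[ℚ] ℚ) (Y : (Fin g → ℂ) →ₗ[ℝ] (Fin g → ℂ)) :
    LinearMap.trace ℚ A.H1 (A.cmpE f Y) = f (LinearMap.trace ℝ (Fin g → ℂ) Y) := by
  rw [LinearMap.trace_eq_matrix_trace ℚ A.bas, LinearMap.trace_eq_matrix_trace ℝ A.lam,
    Matrix.trace, Matrix.trace, map_sum]
  refine Finset.sum_congr rfl fun j _ => ?_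
  rw [Matrix.diag_apply, Matrix.diag_apply, LinearMap.toMatrix_apply, LinearMap.toMatrix_apply]
  change A.cmpE f Y (A.bas j) j = _
  rw [AbVar.cmpE_apply, AbVar.cmp_apply, AbVar.per_bas]

theorem cmpE_mul (f : ℝ →ₗ[ℚ] ℚ) (Y : (Fin g → ℂ) →ₗ[ℝ] (Fin g → ℂ)) (R : Module.End ℚ A.H1) :
    A.cmpE f Y * R = A.cmpE f (Y.comp (A.ext R)) := by
  refine LinearMap.ext fun w => ?_
  rw [Module.End.mul_apply, AbVar.cmpE_apply, AbVar.cmpE_apply, LinearMap.comp_apply,
    AbVar.ext_apply]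

/-- The real trace of `i M`. -/
theorem trace_JJ (M : (Fin g → ℂ) →ₗ[ℂ] (Fin g → ℂ)) :
    LinearMap.trace ℝ (Fin g → ℂ) (AbVar.JJ.comp (M.restrictScalars ℝ)) =
      -2 * (LinearMap.trace ℂ (Fin g → ℂ) M).im := by
  classical
  let b : Basis (Fin 2 × Fin g) ℝ (Fin g → ℂ) := Complex.basisOneI.smulTower (Pi.basisFun ℂ (Fin g))
  have hb : ∀ i k, b (i, k) = Complex.basisOneI i • (Pi.single k 1 : Fin g → ℂ) := by
    intro i k
    rw [Basis.smulTower_apply, Pi.basisFun_apply]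
  have hr : ∀ (x : Fin g → ℂ) i k, b.repr x (i, k) = Complex.basisOneI.repr (x k) i := by
    intro x i k
    rw [Basis.smulTower_repr]
    rfl
  rw [LinearMap.trace_eq_matrix_trace ℝ b, LinearMap.trace_eq_matrix_trace ℂ (Pi.basisFun ℂ (Fin g)),
    Matrix.trace, Matrix.trace, Fintype.sum_prod_type, Fin.sum_univ_two, Complex.im_sum,
    ← Finset.sum_add_distrib, Finset.mul_sum]
  refine Finset.sum_congr rfl fun k _ => ?_
  simp only [Matrix.diag_apply, LinearMap.toMatrix_apply, hr, hb]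
  have h0 : Complex.basisOneI 0 = 1 := by simp
  have h1 : Complex.basisOneI 1 = Complex.I := by simp
  rw [h0, h1, one_smul]
  have e1 : (AbVar.JJ.comp (M.restrictScalars ℝ)) (Pi.single k 1 : Fin g → ℂ) =
      Complex.I • M (Pi.single k 1) := rfl
  have e2 : (AbVar.JJ.comp (M.restrictScalars ℝ)) (Complex.I • (Pi.single k 1 : Fin g → ℂ)) =
      -M (Pi.single k 1) := by
    change Complex.I • M (Complex.I • (Pi.single k 1 : Fin g → ℂ)) = _
    rw [map_smul, smul_smul, Complex.I_mul_I, neg_one_smul]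
  rw [e1, e2]
  have e3 : ((Pi.basisFun ℂ (Fin g)).repr (M ((Pi.basisFun ℂ (Fin g)) k))) k =
      M (Pi.single k 1) k := by
    rw [Pi.basisFun_apply, Pi.basisFun_repr]
  rw [e3]
  simp only [Complex.coe_basisOneI_repr, Pi.smul_apply, Pi.neg_apply, smul_eq_mul]
  simp
  ring

variable (A)

/-- The skew central endomorphisms have trace zero on the tangent space. -/
def TraceZero : Prop :=
  ∀ R ∈ A.ZA, ∀ M : (Fin g → ℂ) →ₗ[ℂ] (Fin g → ℂ), (∀ w, M (A.per w) = A.per (R w)) →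
    LinearMap.trace ℂ (Fin g → ℂ) M = 0

/-- **Weil type**: the components of the complex structure are sums of commutators. -/
theorem J_mem_comm (h : TraceZero A) (f : ℝ →ₗ[ℚ] ℚ) {S : Submodule ℚ (Module.End ℚ A.H1)}
    (hS : ∀ Y ∈ CC A, ∀ Z ∈ CC A, Y * Z - Z * Y ∈ S) : A.cmpE f AbVar.JJ ∈ S := by
  refine mem_comm (J_mem_CC f) (fun Z hZ hc => ?_) hS
  have hJ : IsSkew A.om (A.cmpE f AbVar.JJ) := A.MA_skew (A.J_mem f)
  obtain ⟨Z', hZ', hSy, hK, hZe⟩ := decomp Z
  have hc' := centre_adj hc hZ'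
  have hcS := centre_smul (2 : ℚ)⁻¹ (centre_add hc hc')
  have hcK := centre_smul (2 : ℚ)⁻¹ (centre_sub hc hc')
  generalize (2 : ℚ)⁻¹ • (Z + Z') = Sy at *
  generalize (2 : ℚ)⁻¹ • (Z - Z') = K at *
  have h1 : LinearMap.trace ℚ A.H1 (A.cmpE f AbVar.JJ * Sy) = 0 :=
    trace_skew (skew_mul hJ hSy (hcS _ (J_mem_CC f)))
  have hKZ : K ∈ A.ZA := centre_ZA hcK hK
  have h2 : LinearMap.trace ℚ A.H1 (A.cmpE f AbVar.JJ * K) = 0 := by
    obtain ⟨M, hM⟩ := A.hodge_end (A.mem_EA.1 hKZ.1)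
    have hext : A.ext K = M.restrictScalars ℝ := A.ext_per fun w => by
      rw [AbVar.ext_apply]
      exact (hM w).symm
    rw [cmpE_mul, trace_cmpE, hext, trace_JJ, h K hKZ M hM, Complex.zero_im, mul_zero, map_zero]
  rw [LinearMap.trace_mul_comm, hZe, mul_add, map_add, h1, h2, add_zero]

/-- **Weil type**: all determinantal forms are Hodge classes. -/
theorem hodge_of_traceZero (h : TraceZero A) {κ : Type} [Fintype κ] [DecidableEq κ]
    {φ : MultilinearMap ℚ (fun _ : κ => A.H1) ℚ} (hd : Det A φ) :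
    IsHodgeTensor (A.per : A.H1 →+ (Fin g → ℂ)) φ := by
  refine ⟨A.Phi φ, fun v => A.Phi_per φ v, (invariant_iff (A.Phi φ)).2 ?_⟩
  let S : Submodule ℚ (Module.End ℚ A.H1) :=
    { carrier := {X | Kills X φ}
      zero_mem' := kills_zero'
      add_mem' := fun hX hY => kills_add' hX hY
      smul_mem' := fun c _ hX => kills_smul' c hX }
  have h1 : ∀ f : ℝ →ₗ[ℚ] ℚ, Kills (A.cmpE f AbVar.JJ) φ := fun f =>
    J_mem_comm A h f (S := S) fun Y hY Z hZ => hd Y Z hY hZ
  exact A.Phi_kills φ AbVar.JJ fun f v => h1 f v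

end Pool.Agent.Helper883Det
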